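import Pool.Agent.W2helper22.ET.Stm

set_option autoImplicit false

/-!
# Piece MOM of the project ETU: second moment of the number of hit triangles
-/

namespace Pool.Agent.W2helper77.ET

open Finset Pool.Agent.W2helper22.SM Pool.Agent.W2helper22.ET

/-! ### Product counting -/

section prod

variable {V B : Type} [Fintype V] [DecidableEq V] [Fintype B] [DecidableEq B]

/-- the number of functions with constraints on three disjoint sets of coordinates -/
theorem card_three [Nonempty B] (V0 V1 V2 : Finset V) (A0 A1 A2 : Finset B)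
    (h01 : Disjoint V0 V1) (h02 : Disjoint V0 V2) (h12 : Disjoint V1 V2) :
    ((univ.filter fun f : V → B => (∀ v ∈ V0, f v ∈ A0) ∧ (∀ v ∈ V1, f v ∈ A1) ∧
      ∀ v ∈ V2, f v ∈ A2).card : ℝ) =
      (Fintype.card (V → B) : ℝ) * (((A0.card : ℝ) / Fintype.card B) ^ V0.card *
        ((A1.card : ℝ) / Fintype.card B) ^ V1.card *
        ((A2.card : ℝ) / Fintype.card B) ^ V2.card) := by
  have hB : (Fintype.card B : ℝ) ≠ 0 := by
    exact_mod_cast Fintype.card_ne_zero
  set c : V → Finset B := fun v => if v ∈ V0 then A0 else if v ∈ V1 then A1 else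
    if v ∈ V2 then A2 else univ with hc
  have e1 : (univ.filter fun f : V → B => (∀ v ∈ V0, f v ∈ A0) ∧ (∀ v ∈ V1, f v ∈ A1) ∧
      ∀ v ∈ V2, f v ∈ A2) = Fintype.piFinset c := by
    ext f
    rw [mem_filter, Fintype.mem_piFinset]
    constructor
    · rintro ⟨-, g0, g1, g2⟩ v
      simp only [hc]
      split_ifs with k0 k1 k2
      · exact g0 v k0
      · exact g1 v k1
      · exact g2 v k2
      · exact mem_univ _
    · intro g
      refine ⟨mem_univ _, fun v hv => ?_, fun v hv => ?_, fun v hv => ?_⟩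
      · have := g v
        simp only [hc, if_pos hv] at this
        exact this
      · have := g v
        have k0 : v ∉ V0 := fun h => Finset.disjoint_left.1 h01 h hv
        simp only [hc, if_neg k0, if_pos hv] at this
        exact this
      · have := g v
        have k0 : v ∉ V0 := fun h => Finset.disjoint_left.1 h02 h hv
        have k1 : v ∉ V1 := fun h => Finset.disjoint_left.1 h12 h hv
        simp only [hc, if_neg k0, if_neg k1, if_pos hv] at this
        exact this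
  rw [e1, Fintype.card_piFinset]
  push_cast
  have e2 : ∀ v : V, ((c v).card : ℝ) = Fintype.card B *
      ((if v ∈ V0 then (A0.card : ℝ) / Fintype.card B else 1) *
        (if v ∈ V1 then (A1.card : ℝ) / Fintype.card B else 1) *
        (if v ∈ V2 then (A2.card : ℝ) / Fintype.card B else 1)) := by
    intro v
    simp only [hc]
    by_cases k0 : v ∈ V0
    · have k1 : v ∉ V1 := fun h => Finset.disjoint_left.1 h01 k0 h
      have k2 : v ∉ V2 := fun h => Finset.disjoint_left.1 h02 k0 h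
      rw [if_pos k0, if_pos k0, if_neg k1, if_neg k2]
      field_simp
    · rw [if_neg k0, if_neg k0]
      by_cases k1 : v ∈ V1
      · have k2 : v ∉ V2 := fun h => Finset.disjoint_left.1 h12 k1 h
        rw [if_pos k1, if_pos k1, if_neg k2]
        field_simp
      · rw [if_neg k1, if_neg k1]
        by_cases k2 : v ∈ V2
        · rw [if_pos k2, if_pos k2]
          field_simp
        · rw [if_neg k2, if_neg k2, card_univ]
          ring
  simp_rw [e2]
  rw [Finset.prod_mul_distrib, Finset.prod_mul_distrib, Finset.prod_mul_distrib,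
    Finset.prod_const, Finset.prod_ite_mem, Finset.prod_ite_mem, Finset.prod_ite_mem,
    Finset.univ_inter, Finset.univ_inter, Finset.univ_inter, Finset.prod_const,
    Finset.prod_const, Finset.prod_const, card_univ, Fintype.card_fun]
  push_cast
  ring

end prod

/-! ### One residue -/

theorem card_mod (b s a : ℕ) (hs : s ≤ b) (ha : a < 2 ^ s) :
    (univ.filter fun u : Fin (2 ^ b) => (u : ℕ) % 2 ^ s = a).card = 2 ^ (b - s) := by
  have h0 : 0 < 2 ^ s := by positivity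
  have h1 := Nat.count_modEq_card (2 ^ b) h0 a
  have h2 : 2 ^ b % 2 ^ s = 0 := Nat.mod_eq_zero_of_dvd (pow_dvd_pow 2 hs)
  rw [h2, if_neg (by omega), Nat.add_zero, Nat.pow_div hs (by norm_num)] at h1
  rw [← h1, Nat.count_eq_card_filter_range, Finset.card_filter, Finset.card_filter,
    Fin.sum_univ_eq_sum_range (fun u => if u % 2 ^ s = a then 1 else 0)]
  refine Finset.sum_congr rfl fun u _ => ?_
  have : (u % 2 ^ s = a) ↔ (u ≡ a [MOD 2 ^ s]) := by
    unfold Nat.ModEq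
    rw [Nat.mod_eq_of_lt ha]
  simp only [this]

/-- the set of the pairs with given role and label -/
def cell (b r s a : ℕ) : Finset (Fin (2 ^ b) × Fin (2 ^ b)) :=
  univ.filter fun x => (x.1 : ℕ) % 4 = r ∧ (x.2 : ℕ) % 2 ^ s = a

theorem card_cell (b r s a : ℕ) (hb : 2 ≤ b) (hs : s ≤ b) (hr : r < 4) (ha : a < 2 ^ s) :
    ((cell b r s a).card : ℝ) / Fintype.card (Fin (2 ^ b) × Fin (2 ^ b)) =
      1 / (4 * 2 ^ s) := by
  have e : cell b r s a = (univ.filter fun u : Fin (2 ^ b) => (u : ℕ) % 2 ^ 2 = r) ×ˢ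
      (univ.filter fun u : Fin (2 ^ b) => (u : ℕ) % 2 ^ s = a) := by
    ext x
    unfold cell
    rw [mem_filter, mem_product, mem_filter, mem_filter]
    simp
  rw [e, card_product, card_mod b 2 r hb (by omega), card_mod b s a hs ha, Fintype.card_prod,
    Fintype.card_fin]
  push_cast
  have h1 : (2 : ℝ) ^ b = 2 ^ (b - 2) * 4 := by
    have : b = (b - 2) + 2 := by omega
    conv_lhs => rw [this, pow_add]
    norm_num
  have h2 : (2 : ℝ) ^ b = 2 ^ (b - s) * 2 ^ s := by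
    rw [← pow_add]; congr 1; omega
  have h3 : (0 : ℝ) < 2 ^ (b - 2) := by positivity
  have h4 : (0 : ℝ) < 2 ^ (b - s) := by positivity
  have h5 : (0 : ℝ) < 2 ^ s := by positivity
  have h6 : (0 : ℝ) < 2 ^ b := by positivity
  rw [div_eq_div_iff (by positivity) (by positivity)]
  conv_rhs => rw [h2]
  have : (2 : ℝ) ^ (b - 2) * 2 ^ (b - s) * (4 * 2 ^ s) = (2 ^ (b - 2) * 4) * (2 ^ (b - s) * 2 ^ s) := by
    ring
  rw [this, ← h1, ← h2]
  ring

theorem cell_disj (b : ℕ) {r r' s s' a a' : ℕ} (h : r ≠ r') {x : Fin (2 ^ b) × Fin (2 ^ b)}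
    (h1 : x ∈ cell b r s a) (h2 : x ∈ cell b r' s' a') : False := by
  unfold cell at h1 h2
  rw [mem_filter] at h1 h2
  exact h (h1.2.1.symm.trans h2.2.1)

/-! ### The second moment -/

section moment

variable {V B : Type} [Fintype V] [DecidableEq V] [Fintype B] [DecidableEq B]

/-- the triangle is hit -/
def H3 (A0 A1 A2 : Finset B) (p : V × V × V) (f : V → B) : Prop :=
  f p.1 ∈ A0 ∧ f p.2.1 ∈ A1 ∧ f p.2.2 ∈ A2

instance (A0 A1 A2 : Finset B) (p : V × V × V) (f : V → B) : Decidable (H3 A0 A1 A2 p f) := by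
  unfold H3; infer_instance

theorem one_count [Nonempty B] (A0 A1 A2 : Finset B) (p : V × V × V)
    (hp : p.1 ≠ p.2.1 ∧ p.2.1 ≠ p.2.2 ∧ p.1 ≠ p.2.2) :
    ((univ.filter fun f : V → B => H3 A0 A1 A2 p f).card : ℝ) =
      (Fintype.card (V → B) : ℝ) * (((A0.card : ℝ) / Fintype.card B) *
        ((A1.card : ℝ) / Fintype.card B) * ((A2.card : ℝ) / Fintype.card B)) := by
  have h := card_three (V := V) (B := B) {p.1} {p.2.1} {p.2.2} A0 A1 A2
    (by simpa using hp.1) (by simpa using hp.2.2) (by simpa using hp.2.1)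
  simp only [mem_singleton, forall_eq, card_singleton, pow_one] at h
  exact h

omit [Fintype V] in
theorem pow_card_le {a : ℝ} (_h0 : 0 ≤ a) (x y : V) :
    a ^ ({x, y} : Finset V).card ≤ a ^ 2 + if x = y then a else 0 := by
  by_cases h : x = y
  · rw [h, if_pos rfl]
    have : ({y, y} : Finset V).card = 1 := by simp
    rw [this, pow_one]
    nlinarith [sq_nonneg a]
  · rw [if_neg h, card_pair h, add_zero]

theorem two_count [Nonempty B] (A0 A1 A2 : Finset B) (h01 : ∀ x ∈ A0, x ∉ A1)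
    (h02 : ∀ x ∈ A0, x ∉ A2) (h12 : ∀ x ∈ A1, x ∉ A2) (p q : V × V × V)
    (hp : p.1 ≠ p.2.1 ∧ p.2.1 ≠ p.2.2 ∧ p.1 ≠ p.2.2)
    (hq : q.1 ≠ q.2.1 ∧ q.2.1 ≠ q.2.2 ∧ q.1 ≠ q.2.2) {α0 α1 α2 : ℝ}
    (e0 : (A0.card : ℝ) / Fintype.card B = α0) (e1 : (A1.card : ℝ) / Fintype.card B = α1)
    (e2 : (A2.card : ℝ) / Fintype.card B = α2) :
    ((univ.filter fun f : V → B => H3 A0 A1 A2 p f ∧ H3 A0 A1 A2 q f).card : ℝ) ≤
      (Fintype.card (V → B) : ℝ) * ((α0 ^ 2 + if p.1 = q.1 then α0 else 0) *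
        (α1 ^ 2 + if p.2.1 = q.2.1 then α1 else 0) *
        (α2 ^ 2 + if p.2.2 = q.2.2 then α2 else 0)) := by
  have a0 : 0 ≤ α0 := by rw [← e0]; positivity
  have a1 : 0 ≤ α1 := by rw [← e1]; positivity
  have a2 : 0 ≤ α2 := by rw [← e2]; positivity
  by_cases hd : Disjoint ({p.1, q.1} : Finset V) {p.2.1, q.2.1} ∧
      Disjoint ({p.1, q.1} : Finset V) {p.2.2, q.2.2} ∧
      Disjoint ({p.2.1, q.2.1} : Finset V) {p.2.2, q.2.2}
  · have h := card_three (V := V) (B := B) {p.1, q.1} {p.2.1, q.2.1} {p.2.2, q.2.2} A0 A1 A2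
      hd.1 hd.2.1 hd.2.2
    have e : (univ.filter fun f : V → B => H3 A0 A1 A2 p f ∧ H3 A0 A1 A2 q f) =
        (univ.filter fun f : V → B => (∀ v ∈ ({p.1, q.1} : Finset V), f v ∈ A0) ∧
          (∀ v ∈ ({p.2.1, q.2.1} : Finset V), f v ∈ A1) ∧
          ∀ v ∈ ({p.2.2, q.2.2} : Finset V), f v ∈ A2) := by
      ext f
      rw [mem_filter, mem_filter]
      unfold H3
      simp only [mem_insert, mem_singleton, forall_eq_or_imp, forall_eq]
      tauto
    rw [e, h, e0, e1, e2]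
    refine mul_le_mul_of_nonneg_left ?_ (by positivity)
    have g0 := pow_card_le a0 p.1 q.1
    have g1 := pow_card_le a1 p.2.1 q.2.1
    have g2 := pow_card_le a2 p.2.2 q.2.2
    have n0 : 0 ≤ α0 ^ 2 + if p.1 = q.1 then α0 else 0 := by positivity
    have n1 : 0 ≤ α1 ^ 2 + if p.2.1 = q.2.1 then α1 else 0 := by positivity
    exact mul_le_mul (mul_le_mul g0 g1 (by positivity) n0) g2 (by positivity)
      (mul_nonneg n0 n1)
  · have e : (univ.filter fun f : V → B => H3 A0 A1 A2 p f ∧ H3 A0 A1 A2 q f) = ∅ := by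
      rw [Finset.filter_eq_empty_iff]
      rintro f - ⟨⟨f0, f1, f2⟩, g0, g1, g2⟩
      apply hd
      refine ⟨?_, ?_, ?_⟩
      · rw [Finset.disjoint_left]
        intro v hv hv'
        rw [mem_insert, mem_singleton] at hv hv'
        have k0 : f v ∈ A0 := by rcases hv with rfl | rfl <;> assumption
        have k1 : f v ∈ A1 := by rcases hv' with h | h <;> rw [h] <;> assumption
        exact h01 _ k0 k1
      · rw [Finset.disjoint_left]
        intro v hv hv'
        rw [mem_insert, mem_singleton] at hv hv'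
        have k0 : f v ∈ A0 := by rcases hv with rfl | rfl <;> assumption
        have k1 : f v ∈ A2 := by rcases hv' with h | h <;> rw [h] <;> assumption
        exact h02 _ k0 k1
      · rw [Finset.disjoint_left]
        intro v hv hv'
        rw [mem_insert, mem_singleton] at hv hv'
        have k0 : f v ∈ A1 := by rcases hv with rfl | rfl <;> assumption
        have k1 : f v ∈ A2 := by rcases hv' with h | h <;> rw [h] <;> assumption
        exact h12 _ k0 k1
    rw [e, card_empty, Nat.cast_zero]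
    have n0 : 0 ≤ α0 ^ 2 + if p.1 = q.1 then α0 else 0 := by positivity
    have n1 : 0 ≤ α1 ^ 2 + if p.2.1 = q.2.1 then α1 else 0 := by positivity
    have n2 : 0 ≤ α2 ^ 2 + if p.2.2 = q.2.2 then α2 else 0 := by positivity
    exact mul_nonneg (by positivity) (mul_nonneg (mul_nonneg n0 n1) n2)

omit [Fintype V] in
/-- the sum over the second triangle -/
theorem sum_second (T : Finset (V × V × V)) {α0 α1 α2 : ℝ} (p0 : 0 < α0) (p1 : 0 < α1)
    (p2 : 0 < α2) (c3 : 16 ≤ α0 * α1 * α2 * T.card)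
    (c01 : ∀ x y, 32 * ((T.filter fun p => p.1 = x ∧ p.2.1 = y).card : ℝ) ≤ α0 * α1 * T.card)
    (c02 : ∀ x z, 32 * ((T.filter fun p => p.1 = x ∧ p.2.2 = z).card : ℝ) ≤ α0 * α2 * T.card)
    (c12 : ∀ y z, 32 * ((T.filter fun p => p.2.1 = y ∧ p.2.2 = z).card : ℝ) ≤ α1 * α2 * T.card)
    (c0 : ∀ x, 128 * ((T.filter fun p => p.1 = x).card : ℝ) ≤ α0 * T.card)
    (c1 : ∀ y, 128 * ((T.filter fun p => p.2.1 = y).card : ℝ) ≤ α1 * T.card)
    (c2 : ∀ z, 128 * ((T.filter fun p => p.2.2 = z).card : ℝ) ≤ α2 * T.card)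
    (p : V × V × V) (hp : p ∈ T) :
    ∑ q ∈ T, (α0 ^ 2 + if p.1 = q.1 then α0 else 0) *
        (α1 ^ 2 + if p.2.1 = q.2.1 then α1 else 0) *
        (α2 ^ 2 + if p.2.2 = q.2.2 then α2 else 0) ≤
      151 / 128 * (T.card * (α0 * α1 * α2) ^ 2) := by
  have e : ∀ q ∈ T, (α0 ^ 2 + if p.1 = q.1 then α0 else 0) *
        (α1 ^ 2 + if p.2.1 = q.2.1 then α1 else 0) *
        (α2 ^ 2 + if p.2.2 = q.2.2 then α2 else 0) =
      (α0 * α1 * α2) ^ 2 + α0 * α1 ^ 2 * α2 ^ 2 * (if q.1 = p.1 then 1 else 0) +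
      α0 ^ 2 * α1 * α2 ^ 2 * (if q.2.1 = p.2.1 then 1 else 0) +
      α0 ^ 2 * α1 ^ 2 * α2 * (if q.2.2 = p.2.2 then 1 else 0) +
      α0 * α1 * α2 ^ 2 * (if q.1 = p.1 ∧ q.2.1 = p.2.1 then 1 else 0) +
      α0 * α1 ^ 2 * α2 * (if q.1 = p.1 ∧ q.2.2 = p.2.2 then 1 else 0) +
      α0 ^ 2 * α1 * α2 * (if q.2.1 = p.2.1 ∧ q.2.2 = p.2.2 then 1 else 0) +
      α0 * α1 * α2 * (if q = p then 1 else 0) := by
    intro q _
    have hq : (q = p) ↔ (q.1 = p.1 ∧ q.2.1 = p.2.1 ∧ q.2.2 = p.2.2) := by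
      rw [Prod.ext_iff, Prod.ext_iff]
    simp only [hq, eq_comm (a := p.1), eq_comm (a := p.2.1), eq_comm (a := p.2.2)]
    by_cases k0 : q.1 = p.1 <;> by_cases k1 : q.2.1 = p.2.1 <;> by_cases k2 : q.2.2 = p.2.2 <;>
      simp only [k0, k1, k2, if_true, if_false, and_true, and_false, and_self] <;> ring
  rw [Finset.sum_congr rfl e]
  simp only [Finset.sum_add_distrib, ← Finset.mul_sum, Finset.sum_boole, Finset.sum_const,
    nsmul_eq_mul]
  have h3 : (T.filter fun q => q = p).card = 1 := by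
    rw [Finset.filter_eq', if_pos hp, card_singleton]
  rw [h3]
  have b0 := c0 p.1
  have b1 := c1 p.2.1
  have b2 := c2 p.2.2
  have b01 := c01 p.1 p.2.1
  have b02 := c02 p.1 p.2.2
  have b12 := c12 p.2.1 p.2.2
  set t : ℝ := (T.card : ℝ)
  set P := α0 * α1 * α2 with hP
  have hPpos : 0 < P := by positivity
  have m0 : 128 * (α0 * α1 ^ 2 * α2 ^ 2 * ((T.filter fun q => q.1 = p.1).card : ℝ)) ≤
      t * P ^ 2 := by
    have := mul_le_mul_of_nonneg_left b0 (show 0 ≤ α0 * α1 ^ 2 * α2 ^ 2 by positivity)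
    rw [hP]; linarith
  have m1 : 128 * (α0 ^ 2 * α1 * α2 ^ 2 * ((T.filter fun q => q.2.1 = p.2.1).card : ℝ)) ≤
      t * P ^ 2 := by
    have := mul_le_mul_of_nonneg_left b1 (show 0 ≤ α0 ^ 2 * α1 * α2 ^ 2 by positivity)
    rw [hP]; linarith
  have m2 : 128 * (α0 ^ 2 * α1 ^ 2 * α2 * ((T.filter fun q => q.2.2 = p.2.2).card : ℝ)) ≤
      t * P ^ 2 := by
    have := mul_le_mul_of_nonneg_left b2 (show 0 ≤ α0 ^ 2 * α1 ^ 2 * α2 by positivity)
    rw [hP]; linarith
  have m01 : 32 * (α0 * α1 * α2 ^ 2 *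
      ((T.filter fun q => q.1 = p.1 ∧ q.2.1 = p.2.1).card : ℝ)) ≤ t * P ^ 2 := by
    have := mul_le_mul_of_nonneg_left b01 (show 0 ≤ α0 * α1 * α2 ^ 2 by positivity)
    rw [hP]; linarith
  have m02 : 32 * (α0 * α1 ^ 2 * α2 *
      ((T.filter fun q => q.1 = p.1 ∧ q.2.2 = p.2.2).card : ℝ)) ≤ t * P ^ 2 := by
    have := mul_le_mul_of_nonneg_left b02 (show 0 ≤ α0 * α1 ^ 2 * α2 by positivity)
    rw [hP]; linarith
  have m12 : 32 * (α0 ^ 2 * α1 * α2 *
      ((T.filter fun q => q.2.1 = p.2.1 ∧ q.2.2 = p.2.2).card : ℝ)) ≤ t * P ^ 2 := by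
    have := mul_le_mul_of_nonneg_left b12 (show 0 ≤ α0 ^ 2 * α1 * α2 by positivity)
    rw [hP]; linarith
  have m3 : 16 * P ≤ t * P ^ 2 := by
    have := mul_le_mul_of_nonneg_left c3 hPpos.le
    linarith
  push_cast
  linarith

/-- **second moment bound** -/
theorem half [Nonempty B] (T : Finset (V × V × V)) (A0 A1 A2 : Finset B)
    (h01 : ∀ x ∈ A0, x ∉ A1) (h02 : ∀ x ∈ A0, x ∉ A2) (h12 : ∀ x ∈ A1, x ∉ A2)
    (hT : ∀ p ∈ T, p.1 ≠ p.2.1 ∧ p.2.1 ≠ p.2.2 ∧ p.1 ≠ p.2.2) {α0 α1 α2 : ℝ}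
    (e0 : (A0.card : ℝ) / Fintype.card B = α0) (e1 : (A1.card : ℝ) / Fintype.card B = α1)
    (e2 : (A2.card : ℝ) / Fintype.card B = α2) (p0 : 0 < α0) (p1 : 0 < α1)
    (p2 : 0 < α2) (c3 : 16 ≤ α0 * α1 * α2 * T.card)
    (c01 : ∀ x y, 32 * ((T.filter fun p => p.1 = x ∧ p.2.1 = y).card : ℝ) ≤ α0 * α1 * T.card)
    (c02 : ∀ x z, 32 * ((T.filter fun p => p.1 = x ∧ p.2.2 = z).card : ℝ) ≤ α0 * α2 * T.card)
    (c12 : ∀ y z, 32 * ((T.filter fun p => p.2.1 = y ∧ p.2.2 = z).card : ℝ) ≤ α1 * α2 * T.card)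
    (c0 : ∀ x, 128 * ((T.filter fun p => p.1 = x).card : ℝ) ≤ α0 * T.card)
    (c1 : ∀ y, 128 * ((T.filter fun p => p.2.1 = y).card : ℝ) ≤ α1 * T.card)
    (c2 : ∀ z, 128 * ((T.filter fun p => p.2.2 = z).card : ℝ) ≤ α2 * T.card) :
    1 / 2 * (Fintype.card (V → B) : ℝ) ≤
      ((univ.filter fun f : V → B => ∃ p ∈ T, H3 A0 A1 A2 p f).card : ℝ) := by
  set Ω : ℝ := (Fintype.card (V → B) : ℝ) with hΩ
  have hΩ0 : 0 < Ω := by
    rw [hΩ]; exact_mod_cast Fintype.card_pos
  set Z : (V → B) → ℝ := fun f => ∑ p ∈ T, if H3 A0 A1 A2 p f then 1 else 0 with hZ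
  set P := α0 * α1 * α2 with hP
  have hPpos : 0 < P := by positivity
  set t : ℝ := (T.card : ℝ) with ht
  have htpos : 0 < t := by
    by_contra hcon
    push Not at hcon
    nlinarith
  have s1 : ∑ f, Z f = Ω * P * t := by
    simp only [hZ]
    rw [Finset.sum_comm]
    have : ∀ p ∈ T, ∑ f : V → B, (if H3 A0 A1 A2 p f then (1 : ℝ) else 0) = Ω * P := by
      intro p hp
      rw [Finset.sum_boole, one_count A0 A1 A2 p (hT p hp), e0, e1, e2]
    rw [Finset.sum_congr rfl this, Finset.sum_const, nsmul_eq_mul]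
    ring
  have s2 : ∑ f, Z f ^ 2 ≤ Ω * (151 / 128 * (t * P) ^ 2) := by
    have : ∀ f, Z f ^ 2 = ∑ p ∈ T, ∑ q ∈ T,
        if H3 A0 A1 A2 p f ∧ H3 A0 A1 A2 q f then (1 : ℝ) else 0 := by
      intro f
      simp only [hZ]
      rw [sq, Finset.sum_mul_sum]
      refine Finset.sum_congr rfl fun p _ => Finset.sum_congr rfl fun q _ => ?_
      by_cases k0 : H3 A0 A1 A2 p f <;> by_cases k1 : H3 A0 A1 A2 q f <;> simp [k0, k1]
    simp_rw [this]
    rw [Finset.sum_comm]
    have h1 : ∀ p ∈ T, ∑ f : V → B, ∑ q ∈ T,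
        (if H3 A0 A1 A2 p f ∧ H3 A0 A1 A2 q f then (1 : ℝ) else 0) ≤
        Ω * (151 / 128 * (t * P ^ 2)) := by
      intro p hp
      rw [Finset.sum_comm]
      have h2 : ∀ q ∈ T, ∑ f : V → B,
          (if H3 A0 A1 A2 p f ∧ H3 A0 A1 A2 q f then (1 : ℝ) else 0) ≤
          Ω * ((α0 ^ 2 + if p.1 = q.1 then α0 else 0) *
            (α1 ^ 2 + if p.2.1 = q.2.1 then α1 else 0) *
            (α2 ^ 2 + if p.2.2 = q.2.2 then α2 else 0)) := by
        intro q hq
        rw [Finset.sum_boole]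
        exact two_count A0 A1 A2 h01 h02 h12 p q (hT p hp) (hT q hq) e0 e1 e2
      refine (Finset.sum_le_sum h2).trans ?_
      rw [← Finset.mul_sum]
      exact mul_le_mul_of_nonneg_left
        (sum_second T p0 p1 p2 c3 c01 c02 c12 c0 c1 c2 p hp) hΩ0.le
    refine (Finset.sum_le_sum h1).trans (le_of_eq ?_)
    rw [Finset.sum_const, nsmul_eq_mul]
    ring
  set S := (univ.filter fun f : V → B => ∃ p ∈ T, H3 A0 A1 A2 p f) with hS
  have s3 : ∑ f, Z f = ∑ f, (if f ∈ S then (1 : ℝ) else 0) * Z f := by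
    refine Finset.sum_congr rfl fun f _ => ?_
    by_cases hf : f ∈ S
    · rw [if_pos hf, one_mul]
    · rw [if_neg hf, zero_mul]
      simp only [hZ]
      refine Finset.sum_eq_zero fun p hp => ?_
      rw [if_neg]
      intro h
      exact hf (by rw [hS, mem_filter]; exact ⟨mem_univ _, p, hp, h⟩)
  have s4 := Finset.sum_mul_sq_le_sq_mul_sq univ (fun f => if f ∈ S then (1 : ℝ) else 0) Z
  rw [← s3, s1] at s4
  have s5 : ∑ f : V → B, (if f ∈ S then (1 : ℝ) else 0) ^ 2 = S.card := by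
    simp
  rw [s5] at s4
  have hScard : (0 : ℝ) ≤ S.card := by positivity
  have s6 : (Ω * P * t) ^ 2 ≤ S.card * (Ω * (151 / 128 * (t * P) ^ 2)) :=
    s4.trans (mul_le_mul_of_nonneg_left s2 hScard)
  have s7 : (Ω * (t * P) ^ 2) * Ω ≤ (Ω * (t * P) ^ 2) * (151 / 128 * S.card) := by
    calc _ = (Ω * P * t) ^ 2 := by ring
      _ ≤ _ := s6
      _ = _ := by ring
  have s8 := le_of_mul_le_mul_left s7 (by positivity)
  linarith

end moment

/-- **Piece MOM** -/
theorem mom : P_MOM := by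
  intro n T s1 s2 s3 hn hS a ha b hb c hc
  obtain ⟨hs1, hs2, hs3, hd, k3, k12, k13, k23, k1, k2, k3'⟩ := hS
  have hbits : 2 ≤ bits n := by
    unfold bits
    have : 1 ≤ Nat.log 2 n := Nat.log_pos (by norm_num) hn
    omega
  set m := bits n with hm
  set A0 := cell m 0 s1 a
  set A1 := cell m 1 s2 b
  set A2 := cell m 2 s3 c
  have e0 := card_cell m 0 s1 a hbits hs1.le (by norm_num) ha
  have e1 := card_cell m 1 s2 b hbits hs2.le (by norm_num) hb
  have e2 := card_cell m 2 s3 c hbits hs3.le (by norm_num) hc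
  have q1 : (0 : ℝ) < 2 ^ s1 := by positivity
  have q2 : (0 : ℝ) < 2 ^ s2 := by positivity
  have q3 : (0 : ℝ) < 2 ^ s3 := by positivity
  have : Nonempty (Fin (2 ^ m) × Fin (2 ^ m)) :=
    ⟨⟨⟨0, by positivity⟩, ⟨0, by positivity⟩⟩⟩
  have h := half (V := Fin n) (B := Fin (2 ^ m) × Fin (2 ^ m)) T A0 A1 A2
    (fun x h h' => cell_disj m (by norm_num) h h') (fun x h h' => cell_disj m (by norm_num) h h')
    (fun x h h' => cell_disj m (by norm_num) h h') hd e0 e1 e2 (by positivity) (by positivity)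
    (by positivity)
    (by
      have : (1024 : ℝ) * 2 ^ (s1 + s2 + s3) ≤ T.card := by exact_mod_cast k3
      rw [pow_add, pow_add] at this
      have e : (1 : ℝ) / (4 * 2 ^ s1) * (1 / (4 * 2 ^ s2)) * (1 / (4 * 2 ^ s3)) * T.card =
        T.card / (64 * (2 ^ s1 * 2 ^ s2 * 2 ^ s3)) := by field_simp; ring
      rw [e, le_div_iff₀ (by positivity)]
      linarith)
    (by
      intro x y
      have := k12 x y
      have : (512 : ℝ) * ((T.filter fun p => p.1 = x ∧ p.2.1 = y).card : ℝ) * 2 ^ (s1 + s2) ≤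
        T.card := by exact_mod_cast this
      rw [pow_add] at this
      have e : (1 : ℝ) / (4 * 2 ^ s1) * (1 / (4 * 2 ^ s2)) * T.card =
        T.card / (16 * (2 ^ s1 * 2 ^ s2)) := by field_simp; ring
      rw [e, le_div_iff₀ (by positivity)]
      linarith)
    (by
      intro x y
      have := k13 x y
      have : (512 : ℝ) * ((T.filter fun p => p.1 = x ∧ p.2.2 = y).card : ℝ) * 2 ^ (s1 + s3) ≤
        T.card := by exact_mod_cast this
      rw [pow_add] at this
      have e : (1 : ℝ) / (4 * 2 ^ s1) * (1 / (4 * 2 ^ s3)) * T.card =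
        T.card / (16 * (2 ^ s1 * 2 ^ s3)) := by field_simp; ring
      rw [e, le_div_iff₀ (by positivity)]
      linarith)
    (by
      intro x y
      have := k23 x y
      have : (512 : ℝ) * ((T.filter fun p => p.2.1 = x ∧ p.2.2 = y).card : ℝ) * 2 ^ (s2 + s3) ≤
        T.card := by exact_mod_cast this
      rw [pow_add] at this
      have e : (1 : ℝ) / (4 * 2 ^ s2) * (1 / (4 * 2 ^ s3)) * T.card =
        T.card / (16 * (2 ^ s2 * 2 ^ s3)) := by field_simp; ring
      rw [e, le_div_iff₀ (by positivity)]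
      linarith)
    (by
      intro x
      have : (512 : ℝ) * ((T.filter fun p => p.1 = x).card : ℝ) * 2 ^ s1 ≤
        T.card := by exact_mod_cast k1 x
      have e : (1 : ℝ) / (4 * 2 ^ s1) * T.card = T.card / (4 * 2 ^ s1) := by field_simp
      rw [e, le_div_iff₀ (by positivity)]
      linarith)
    (by
      intro x
      have : (512 : ℝ) * ((T.filter fun p => p.2.1 = x).card : ℝ) * 2 ^ s2 ≤
        T.card := by exact_mod_cast k2 x
      have e : (1 : ℝ) / (4 * 2 ^ s2) * T.card = T.card / (4 * 2 ^ s2) := by field_simp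
      rw [e, le_div_iff₀ (by positivity)]
      linarith)
    (by
      intro x
      have : (512 : ℝ) * ((T.filter fun p => p.2.2 = x).card : ℝ) * 2 ^ s3 ≤
        T.card := by exact_mod_cast k3' x
      have e : (1 : ℝ) / (4 * 2 ^ s3) * T.card = T.card / (4 * 2 ^ s3) := by field_simp
      rw [e, le_div_iff₀ (by positivity)]
      linarith)
  unfold prob
  have hΩ : (0 : ℝ) < Nat.card (Fin n → Fin (2 ^ bits n) × Fin (2 ^ bits n)) := by
    rw [Nat.card_eq_fintype_card]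
    exact_mod_cast Fintype.card_pos
  rw [le_div_iff₀ hΩ]
  rw [Nat.card_eq_fintype_card]
  refine h.trans ?_
  classical
  rw [Nat.card_eq_fintype_card, Fintype.card_subtype]
  refine Nat.cast_le.2 (Finset.card_le_card ?_)
  intro f hf
  rw [mem_filter] at hf ⊢
  refine ⟨mem_univ _, ?_⟩
  obtain ⟨-, p, hp, g0, g1, g2⟩ := hf
  have g0' := (mem_filter.1 g0).2
  have g1' := (mem_filter.1 g1).2
  have g2' := (mem_filter.1 g2).2
  exact ⟨p, hp, g0'.1, g1'.1, g2'.1, g0'.2, g1'.2, g2'.2⟩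

end Pool.Agent.W2helper77.ET
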